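import Pool.Agent.Lib.MP_021685_agO.Defs

/-!
# Subspaces whose Tate forms of degree four come from degree two: the definition used in the statement
-/

set_option autoImplicit false

namespace Pool.Agent.Lib.MP_021685_agO6

open Module Pool.Agent.Lib.MP_021685_agO

variable {k H : Type*} [Field k] [AddCommGroup H] [Module k H]

/-- The subspace `V` of `H` is simple, it has a symplectic form `β` with multiplier `c`, and every Tate form with four
arguments on `H` is on `V` a linear combination of the three products of two values of `β`. (If `V` is a simple
part of `H_1` of an abelian variety `A` such that the Tate classes of codimension two on `A ^ 4` are generated by the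
classes of divisors, and if `V` has a symplectic form with multiplier `c`, this is the case: the restriction to `V` of a
Tate form with two arguments is a multiple of `β`.) -/
def OddFour (g : Submodule k (End k H)) (c : End k H → k) (V : Submodule k H) : Prop :=
  IsSimpleSub g V ∧ ∃ β, IsSympl g c V β ∧
    ∀ T : MultilinearMap k (fun _ : Fin 4 => H) k, IsTateForm g c 4 T → ∃ a₁ a₂ a₃ : k,
      ∀ v : Fin 4 → H, (∀ i, v i ∈ V) → T v = a₁ * (β (v 0) (v 1) * β (v 2) (v 3)) +
        a₂ * (β (v 0) (v 2) * β (v 1) (v 3)) + a₃ * (β (v 0) (v 3) * β (v 1) (v 2))

end Pool.Agent.Lib.MP_021685_agO6
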