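import Mathlib

/-!
# F1: the trace form of an irreducible Lie algebra is not degenerate
-/

set_option autoImplicit false

namespace Pool.Agent.Lib.MP_021685_agO6

open Module

section

attribute [local instance 100] LieRing.ofAssociativeRing

private theorem F1_solvable {k V : Type*} [Field k] [CharZero k] [AddCommGroup V] [Module k V] [FiniteDimensional k V]
    (I : LieSubalgebra k (End k V)) (h : ∀ x ∈ I, ∀ y ∈ I, LinearMap.trace k V (x * y) = 0) :
    LieAlgebra.IsSolvable I := by
  have h0 : LieModule.traceForm k I V = 0 := by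
    ext ⟨x, hx⟩ ⟨y, hy⟩
    exact h x hx y hy
  have h1 := LieModule.isNilpotent_derivedSeries_of_traceForm_eq_zero h0
  have h2 : LieRing.IsNilpotent (LieAlgebra.derivedSeries k I 1) := by
    rw [LieAlgebra.isNilpotent_iff_forall (R := k)]
    rintro ⟨x, hx⟩
    apply LieSubalgebra.isNilpotent_ad_of_isNilpotent_ad
      ((LieAlgebra.derivedSeries k I 1 : LieIdeal k I) : LieSubalgebra k I) (x := ⟨x, hx⟩)
    apply LieSubalgebra.isNilpotent_ad_of_isNilpotent_ad I (x := x)
    apply LieAlgebra.ad_nilpotent_of_nilpotent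
    exact (LieModule.isNilpotent_iff_forall' (R := k)).mp h1 ⟨x, hx⟩
  obtain ⟨m, hm⟩ := LieAlgebra.IsSolvable.solvable k (LieAlgebra.derivedSeries k I 1)
  rw [LieIdeal.derivedSeries_eq_bot_iff] at hm
  refine LieAlgebra.IsSolvable.mk (R := k) (k := m + 1) ?_
  rw [LieAlgebra.derivedSeries_def, LieAlgebra.derivedSeriesOfIdeal_add]
  exact hm

/-- The trace form of an irreducible Lie algebra of endomorphisms of trace zero is not degenerate. -/
theorem trace_nondeg {k V : Type*} [Field k] [CharZero k] [IsAlgClosed k]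
    [AddCommGroup V] [Module k V] [FiniteDimensional k V] [Nontrivial V]
    (R : Submodule k (End k V)) (hlie : ∀ X ∈ R, ∀ Y ∈ R, X * Y - Y * X ∈ R)
    (hirr : ∀ C : Submodule k V, (∀ x ∈ R, ∀ u ∈ C, x u ∈ C) → C = ⊥ ∨ C = ⊤)
    (htr : ∀ x ∈ R, LinearMap.trace k V x = 0) {X : End k V} (hX : X ∈ R)
    (h : ∀ Y ∈ R, LinearMap.trace k V (X * Y) = 0) : X = 0 := by
  let L : LieSubalgebra k (End k V) := { R with lie_mem' := fun {x y} hx hy => hlie x hx y hy }
  have h1 : LieModule.IsIrreducible k L V := by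
    refine LieModule.IsIrreducible.mk fun N hN => ?_
    rcases hirr N.toSubmodule (fun x hx u hu => N.lie_mem (x := (⟨x, hx⟩ : L)) hu) with h | h
    · exact absurd ((LieSubmodule.toSubmodule_eq_bot N).1 h) hN
    · exact (LieSubmodule.toSubmodule_eq_top (N := N)).1 h
  have h2 : LieAlgebra.HasTrivialRadical k L :=
    LieAlgebra.hasTrivialRadical_of_isIrreducible_of_isFaithful k L V fun x => htr x x.2
  have htrc : ∀ x y z : End k V, LinearMap.trace k V ((x * y - y * x) * z) = LinearMap.trace k V (y * (z * x - x * z)) := by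
    intro x y z
    have e1 : (x * y - y * x) * z = x * (y * z) - y * (x * z) := by
      rw [sub_mul, mul_assoc, mul_assoc]
    have e2 : y * (z * x - x * z) = y * z * x - y * (x * z) := by
      rw [mul_sub, mul_assoc]
    rw [e1, e2, map_sub, map_sub, LinearMap.trace_mul_comm k x (y * z)]
  let I : LieIdeal k L :=
    { carrier := {x | ∀ Y ∈ R, LinearMap.trace k V ((x : End k V) * Y) = 0}
      add_mem' := fun {x y} hx hy Y hY => by
        show LinearMap.trace k V (((x : End k V) + y) * Y) = 0
        rw [add_mul, map_add, hx Y hY, hy Y hY, add_zero]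
      zero_mem' := fun Y _ => by
        show LinearMap.trace k V ((0 : End k V) * Y) = 0
        rw [zero_mul, map_zero]
      smul_mem' := fun c x hx Y hY => by
        show LinearMap.trace k V ((c • (x : End k V)) * Y) = 0
        rw [smul_mul_assoc, map_smul, hx Y hY, smul_zero]
      lie_mem := fun {x y} hy Y hY => by
        show LinearMap.trace k V (((x : End k V) * y - y * x) * Y) = 0
        rw [htrc]
        exact hy _ (hlie Y hY x x.2) }
  have hI : ∀ x : L, x ∈ I ↔ ∀ Y ∈ R, LinearMap.trace k V ((x : End k V) * Y) = 0 := fun x => Iff.rfl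
  let I' : LieSubalgebra k (End k V) :=
    { carrier := {x | x ∈ R ∧ ∀ Y ∈ R, LinearMap.trace k V (x * Y) = 0}
      add_mem' := fun {x y} hx hy => ⟨R.add_mem hx.1 hy.1, fun Y hY => by
        rw [add_mul, map_add, hx.2 Y hY, hy.2 Y hY, add_zero]⟩
      zero_mem' := ⟨R.zero_mem, fun Y _ => by rw [zero_mul, map_zero]⟩
      smul_mem' := fun c x hx => ⟨R.smul_mem c hx.1, fun Y hY => by
        rw [smul_mul_assoc, map_smul, hx.2 Y hY, smul_zero]⟩
      lie_mem' := fun {x y} hx hy => ⟨hlie x hx.1 y hy.1, fun Y hY => by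
        show LinearMap.trace k V ((x * y - y * x) * Y) = 0
        rw [htrc]
        exact hy.2 _ (hlie Y hY x hx.1)⟩ }
  have hsol' : LieAlgebra.IsSolvable I' := F1_solvable I' fun x hx y hy => hx.2 y hy.1
  let f : I →ₗ⁅k⁆ I' :=
    { toFun := fun x => ⟨(x : L), (x : L).2, (hI _).1 x.2⟩
      map_add' := fun _ _ => rfl
      map_smul' := fun _ _ => rfl
      map_lie' := fun {_ _} => rfl }
  have hf : Function.Injective f := by
    intro x y hxy
    have h3 := congrArg (fun z : I' => (z : End k V)) hxy
    exact Subtype.ext (Subtype.ext h3)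
  have hsol : LieAlgebra.IsSolvable I := hf.lieAlgebra_isSolvable
  have hbot := LieAlgebra.HasTrivialRadical.eq_bot_of_isSolvable (R := k) I
  have hmem : (⟨X, hX⟩ : L) ∈ I := (hI _).2 h
  rw [hbot, LieSubmodule.mem_bot] at hmem
  exact congrArg (fun z : L => (z : End k V)) hmem

end

end Pool.Agent.Lib.MP_021685_agO6
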