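import Pool.Agent.Lib.MP_021685_agO6.F1

/-!
# F2: an irreducible symplectic Lie algebra with the forms of degree four generated in degree two
-/

set_option autoImplicit false
set_option linter.unusedSectionVars false

namespace Pool.Agent.Lib.MP_021685_agO6

open Module Function

section

variable {k V : Type*} [Field k] [CharZero k] [IsAlgClosed k] [AddCommGroup V] [Module k V] [FiniteDimensional k V]
  [Nontrivial V]

/-- The equivariant projector to `R`. -/
theorem exists_proj (R : Submodule k (End k V)) (hlie : ∀ X ∈ R, ∀ Y ∈ R, X * Y - Y * X ∈ R)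
    (hirr : ∀ C : Submodule k V, (∀ x ∈ R, ∀ u ∈ C, x u ∈ C) → C = ⊥ ∨ C = ⊤)
    (htr : ∀ x ∈ R, LinearMap.trace k V x = 0) :
    ∃ Q : End k V →ₗ[k] End k V, (∀ Z, Q Z ∈ R) ∧ (∀ X ∈ R, Q X = X) ∧
      ∀ X ∈ R, ∀ Z, Q (X * Z - Z * X) = X * Q Z - Q Z * X := by
  let Bf : LinearMap.BilinForm k (End k V) := LinearMap.mk₂ k (fun A B => LinearMap.trace k V (A * B))
    (fun A A' B => by rw [add_mul, map_add])
    (fun c A B => by rw [smul_mul_assoc, map_smul])
    (fun A B B' => by rw [mul_add, map_add])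
    (fun c A B => by rw [mul_smul_comm, map_smul])
  have hBf : ∀ A B, Bf A B = LinearMap.trace k V (A * B) := fun A B => rfl
  have hsymm : Bf.IsSymm := ⟨fun A B => by rw [hBf, hBf, LinearMap.trace_mul_comm]⟩
  have hrefl : Bf.IsRefl := hsymm.isRefl
  have key : ∀ A ∈ R, (∀ B ∈ R, Bf A B = 0) → A = 0 := fun A hA h => trace_nondeg R hlie hirr htr hA h
  have hres : (Bf.restrict R).Nondegenerate := by
    refine ⟨fun A hA => ?_, fun A hA => ?_⟩
    · exact Subtype.ext (key A.1 A.2 fun B hB => hA ⟨B, hB⟩)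
    · refine Subtype.ext (key A.1 A.2 fun B hB => ?_)
      have h1 : Bf B A.1 = 0 := hA ⟨B, hB⟩
      rw [hBf, LinearMap.trace_mul_comm]
      exact h1
  have hc : IsCompl R (Bf.orthogonal R) := Bf.isCompl_orthogonal_of_restrict_nondegenerate hrefl hres
  have horth : ∀ Z, Z ∈ Bf.orthogonal R ↔ ∀ Y ∈ R, LinearMap.trace k V (Z * Y) = 0 := by
    intro Z
    rw [LinearMap.BilinForm.mem_orthogonal_iff]
    constructor
    · intro h Y hY
      have h2 : LinearMap.trace k V (Y * Z) = 0 := h Y hY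
      rw [LinearMap.trace_mul_comm]
      exact h2
    · intro h A hA
      change LinearMap.trace k V (A * Z) = 0
      rw [LinearMap.trace_mul_comm]
      exact h A hA
  let Q : End k V →ₗ[k] End k V := R.projection (Bf.orthogonal R) hc
  have hQt : ∀ A ∈ R, Q A = A := fun A hA => Submodule.projection_apply_left hc ⟨A, hA⟩
  have hQo : ∀ A ∈ Bf.orthogonal R, Q A = 0 := fun A hA => (Submodule.projection_apply_eq_zero_iff hc).2 hA
  have hQm : ∀ Z, Q Z ∈ R := fun Z => Submodule.projection_apply_mem hc Z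
  refine ⟨Q, hQm, hQt, fun X hX Z => ?_⟩
  have hO : Z - Q Z ∈ Bf.orthogonal R := by
    rw [← Submodule.projection_apply_eq_zero_iff hc]
    change Q (Z - Q Z) = 0
    rw [map_sub, hQt _ (hQm Z), sub_self]
  have h1 : X * Q Z - Q Z * X ∈ R := hlie X hX _ (hQm Z)
  have h2 : X * (Z - Q Z) - (Z - Q Z) * X ∈ Bf.orthogonal R := by
    rw [horth]
    intro Y hY
    have h3 := (horth _).1 hO (Y * X - X * Y) (hlie Y hY X hX)
    rw [sub_mul, map_sub]
    have e1 : LinearMap.trace k V (X * (Z - Q Z) * Y) = LinearMap.trace k V ((Z - Q Z) * (Y * X)) := by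
      rw [mul_assoc X, LinearMap.trace_mul_comm, mul_assoc]
    have e2 : LinearMap.trace k V ((Z - Q Z) * X * Y) = LinearMap.trace k V ((Z - Q Z) * (X * Y)) := by
      rw [mul_assoc]
    rw [e1, e2, ← map_sub, ← mul_sub]
    exact h3
  have h4 : X * Z - Z * X = (X * Q Z - Q Z * X) + (X * (Z - Q Z) - (Z - Q Z) * X) := by
    rw [mul_sub, sub_mul]
    abel
  rw [h4, map_add, hQt _ h1, hQo _ h2, add_zero]

end

section

variable {k V : Type*} [Field k] [AddCommGroup V] [Module k V]

/-- The endomorphism `z ↦ β y z • x`. -/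
private noncomputable def F2_R (β : V →ₗ[k] V →ₗ[k] k) (x y : V) : End k V := (β y).smulRight x

private theorem F2_R_apply (β : V →ₗ[k] V →ₗ[k] k) (x y z : V) : F2_R β x y z = β y z • x := rfl

private theorem F2_R_add₁ (β : V →ₗ[k] V →ₗ[k] k) (x x' y : V) : F2_R β (x + x') y = F2_R β x y + F2_R β x' y := by
  refine LinearMap.ext fun z => ?_
  rw [LinearMap.add_apply, F2_R_apply, F2_R_apply, F2_R_apply, smul_add]

private theorem F2_R_add₂ (β : V →ₗ[k] V →ₗ[k] k) (x y y' : V) : F2_R β x (y + y') = F2_R β x y + F2_R β x y' := by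
  refine LinearMap.ext fun z => ?_
  rw [LinearMap.add_apply, F2_R_apply, F2_R_apply, F2_R_apply, map_add, LinearMap.add_apply, add_smul]

private theorem F2_R_smul₁ (β : V →ₗ[k] V →ₗ[k] k) (c : k) (x y : V) : F2_R β (c • x) y = c • F2_R β x y := by
  refine LinearMap.ext fun z => ?_
  rw [LinearMap.smul_apply, F2_R_apply, F2_R_apply, smul_comm]

private theorem F2_R_smul₂ (β : V →ₗ[k] V →ₗ[k] k) (c : k) (x y : V) : F2_R β x (c • y) = c • F2_R β x y := by
  refine LinearMap.ext fun z => ?_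
  rw [LinearMap.smul_apply, F2_R_apply, F2_R_apply, map_smul, LinearMap.smul_apply, smul_eq_mul, mul_smul]

private theorem F2_n01 : (0 : Fin 4) ≠ 1 := by decide

private theorem F2_n02 : (0 : Fin 4) ≠ 2 := by decide

private theorem F2_n03 : (0 : Fin 4) ≠ 3 := by decide

private theorem F2_n10 : (1 : Fin 4) ≠ 0 := by decide

private theorem F2_n12 : (1 : Fin 4) ≠ 2 := by decide

private theorem F2_n13 : (1 : Fin 4) ≠ 3 := by decide

private theorem F2_n20 : (2 : Fin 4) ≠ 0 := by decide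

private theorem F2_n21 : (2 : Fin 4) ≠ 1 := by decide

private theorem F2_n23 : (2 : Fin 4) ≠ 3 := by decide

private theorem F2_n30 : (3 : Fin 4) ≠ 0 := by decide

private theorem F2_n31 : (3 : Fin 4) ≠ 1 := by decide

private theorem F2_n32 : (3 : Fin 4) ≠ 2 := by decide

/-- The form of degree four. -/
private noncomputable def F2_M (β : V →ₗ[k] V →ₗ[k] k) (Q : End k V →ₗ[k] End k V) (v : Fin 4 → V) : k :=
  β (Q (F2_R β (v 0) (v 1)) (v 2)) (v 3)

private theorem F2_u0 (v : Fin 4 → V) (w : V) (β : V →ₗ[k] V →ₗ[k] k) (Q : End k V →ₗ[k] End k V)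
    [DecidableEq (Fin 4)] : F2_M β Q (update v 0 w) = β (Q (F2_R β w (v 1)) (v 2)) (v 3) := by
  unfold F2_M
  rw [update_self, update_of_ne F2_n10, update_of_ne F2_n20, update_of_ne F2_n30]

private theorem F2_u1 (v : Fin 4 → V) (w : V) (β : V →ₗ[k] V →ₗ[k] k) (Q : End k V →ₗ[k] End k V)
    [DecidableEq (Fin 4)] : F2_M β Q (update v 1 w) = β (Q (F2_R β (v 0) w) (v 2)) (v 3) := by
  unfold F2_M
  rw [update_self, update_of_ne F2_n01, update_of_ne F2_n21, update_of_ne F2_n31]

private theorem F2_u2 (v : Fin 4 → V) (w : V) (β : V →ₗ[k] V →ₗ[k] k) (Q : End k V →ₗ[k] End k V)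
    [DecidableEq (Fin 4)] : F2_M β Q (update v 2 w) = β (Q (F2_R β (v 0) (v 1)) w) (v 3) := by
  unfold F2_M
  rw [update_self, update_of_ne F2_n02, update_of_ne F2_n12, update_of_ne F2_n32]

private theorem F2_u3 (v : Fin 4 → V) (w : V) (β : V →ₗ[k] V →ₗ[k] k) (Q : End k V →ₗ[k] End k V)
    [DecidableEq (Fin 4)] : F2_M β Q (update v 3 w) = β (Q (F2_R β (v 0) (v 1)) (v 2)) w := by
  unfold F2_M
  rw [update_self, update_of_ne F2_n03, update_of_ne F2_n13, update_of_ne F2_n23]

/-- The form of degree four as a multilinear map. -/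
private noncomputable def F2_ML (β : V →ₗ[k] V →ₗ[k] k) (Q : End k V →ₗ[k] End k V) :
    MultilinearMap k (fun _ : Fin 4 => V) k where
  toFun := F2_M β Q
  map_update_add' := by
    intro _ v i x y
    match i with
    | 0 => rw [F2_u0, F2_u0, F2_u0, F2_R_add₁, map_add, LinearMap.add_apply, map_add, LinearMap.add_apply]
    | 1 => rw [F2_u1, F2_u1, F2_u1, F2_R_add₂, map_add, LinearMap.add_apply, map_add, LinearMap.add_apply]
    | 2 => rw [F2_u2, F2_u2, F2_u2, map_add, map_add, LinearMap.add_apply]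
    | 3 => rw [F2_u3, F2_u3, F2_u3, map_add]
  map_update_smul' := by
    intro _ v i c x
    match i with
    | 0 => rw [F2_u0, F2_u0, F2_R_smul₁, map_smul, LinearMap.smul_apply, map_smul, LinearMap.smul_apply]
    | 1 => rw [F2_u1, F2_u1, F2_R_smul₂, map_smul, LinearMap.smul_apply, map_smul, LinearMap.smul_apply]
    | 2 => rw [F2_u2, F2_u2, map_smul, map_smul, LinearMap.smul_apply]
    | 3 => rw [F2_u3, F2_u3, map_smul]

private theorem F2_ML_apply (β : V →ₗ[k] V →ₗ[k] k) (Q : End k V →ₗ[k] End k V) (v : Fin 4 → V) :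
    F2_ML β Q v = F2_M β Q v := rfl

private theorem F2_lie {β : V →ₗ[k] V →ₗ[k] k} {N : End k V} (hN : ∀ u v, β (N u) v + β u (N v) = 0) (x y : V) :
    F2_R β (N x) y + F2_R β x (N y) = N * F2_R β x y - F2_R β x y * N := by
  refine LinearMap.ext fun z => ?_
  have h1 : β (N y) z = - β y (N z) := eq_neg_of_add_eq_zero_left (hN y z)
  rw [LinearMap.add_apply, LinearMap.sub_apply, Module.End.mul_apply, Module.End.mul_apply, F2_R_apply, F2_R_apply,
    F2_R_apply, F2_R_apply, map_smul, h1, neg_smul, sub_eq_add_neg]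

/-- The sum of the four values, one argument replaced, for a skew endomorphism. -/
private theorem F2_sum {β : V →ₗ[k] V →ₗ[k] k} (Q : End k V →ₗ[k] End k V) {N : End k V}
    (hN : ∀ u v, β (N u) v + β u (N v) = 0) (v : Fin 4 → V) :
    ∑ j, F2_M β Q (update v j (N (v j))) =
      β ((Q (N * F2_R β (v 0) (v 1) - F2_R β (v 0) (v 1) * N) -
        (N * Q (F2_R β (v 0) (v 1)) - Q (F2_R β (v 0) (v 1)) * N)) (v 2)) (v 3) := by
  rw [Fin.sum_univ_four, F2_u0, F2_u1, F2_u2, F2_u3, ← F2_lie hN]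
  have h1 := hN (Q (F2_R β (v 0) (v 1)) (v 2)) (v 3)
  rw [map_add Q, LinearMap.sub_apply, LinearMap.sub_apply, LinearMap.add_apply, Module.End.mul_apply,
    Module.End.mul_apply, map_sub, map_sub, map_add, LinearMap.sub_apply, LinearMap.sub_apply, LinearMap.add_apply]
  linear_combination h1

private theorem F2_repr [FiniteDimensional k V] {β : V →ₗ[k] V →ₗ[k] k} (hn : ∀ u, (∀ v, β u v = 0) → u = 0)
    (f : V →ₗ[k] k) : ∃ y, β y = f := by
  have h1 : Injective β := LinearMap.ker_eq_bot.1 (LinearMap.ker_eq_bot'.2 fun u hu =>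
    hn u fun v => by rw [hu, LinearMap.zero_apply])
  have h2 : finrank k V = finrank k (V →ₗ[k] k) := (Subspace.dual_finrank_eq (K := k) (V := V)).symm
  exact (LinearMap.injective_iff_surjective_of_finrank_eq_finrank h2).1 h1 f

/-- If the invariant forms of degree four are generated in degree two, then the equivariant projector commutes with
the symplectic Lie algebra. -/
theorem comm_proj [FiniteDimensional k V] {β : V →ₗ[k] V →ₗ[k] k} (hn : ∀ u, (∀ v, β u v = 0) → u = 0)
    {R : Submodule k (End k V)} (hsk : ∀ X ∈ R, ∀ u v, β (X u) v + β u (X v) = 0)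
    (hfour : ∀ T : MultilinearMap k (fun _ : Fin 4 => V) k, (∀ X ∈ R, ∀ v : Fin 4 → V,
      ∑ j, T (update v j (X (v j))) = 0) → ∃ a b c : k, ∀ v : Fin 4 → V, T v = a * (β (v 0) (v 1) * β (v 2) (v 3)) +
        b * (β (v 0) (v 2) * β (v 1) (v 3)) + c * (β (v 0) (v 3) * β (v 1) (v 2)))
    {Q : End k V →ₗ[k] End k V} (had : ∀ X ∈ R, ∀ Z, Q (X * Z - Z * X) = X * Q Z - Q Z * X)
    {N : End k V} (hN : ∀ u v, β (N u) v + β u (N v) = 0) (Z : End k V) :
    Q (N * Z - Z * N) = N * Q Z - Q Z * N := by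
  obtain ⟨a, b, c, habc⟩ := hfour (F2_ML β Q) fun X hX v => by
    have h1 := F2_sum Q (hsk X hX) v
    rw [had X hX, sub_self, LinearMap.zero_apply, map_zero, LinearMap.zero_apply] at h1
    exact h1
  have hR : ∀ x y, Q (N * F2_R β x y - F2_R β x y * N) - (N * Q (F2_R β x y) - Q (F2_R β x y) * N) = 0 := by
    intro x y
    refine LinearMap.ext fun z => ?_
    rw [LinearMap.zero_apply]
    refine hn _ fun w => ?_
    obtain ⟨v, hv⟩ : ∃ v : Fin 4 → V, v = ![x, y, z, w] := ⟨_, rfl⟩
    have hv0 : v 0 = x := by rw [hv]; rfl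
    have hv1 : v 1 = y := by rw [hv]; rfl
    have hv2 : v 2 = z := by rw [hv]; rfl
    have hv3 : v 3 = w := by rw [hv]; rfl
    have h6 := F2_sum Q hN v
    have h7 : ∀ v', F2_M β Q v' = _ := habc
    rw [Fin.sum_univ_four, h7, h7, h7, h7, update_self, update_self, update_self, update_self,
      update_of_ne F2_n10, update_of_ne F2_n20, update_of_ne F2_n30, update_of_ne F2_n01, update_of_ne F2_n21,
      update_of_ne F2_n31, update_of_ne F2_n02, update_of_ne F2_n12, update_of_ne F2_n32, update_of_ne F2_n03,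
      update_of_ne F2_n13, update_of_ne F2_n23, hv0, hv1, hv2, hv3] at h6
    rw [← h6]
    have e1 := hN x y
    have e2 := hN x z
    have e3 := hN x w
    have e4 := hN y z
    have e5 := hN y w
    have e6 := hN z w
    linear_combination (a * β z w) * e1 + (b * β y w) * e2 + (c * β y z) * e3 + (c * β x w) * e4 +
      (b * β x z) * e5 + (a * β x y) * e6
  let Ψ : End k V →ₗ[k] End k V :=
    Q.comp (LinearMap.mulLeft k N - LinearMap.mulRight k N) - (LinearMap.mulLeft k N - LinearMap.mulRight k N).comp Q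
  have hΨ : ∀ Z : End k V, Ψ Z = Q (N * Z - Z * N) - (N * Q Z - Q Z * N) := fun _ => rfl
  have hb := Module.finBasis k V
  choose y hy using fun l => F2_repr hn (hb.coord l)
  have hsum : Z = ∑ l, F2_R β (Z (hb l)) (y l) := by
    refine LinearMap.ext fun z => ?_
    rw [LinearMap.sum_apply]
    conv_lhs => rw [← hb.sum_repr z, map_sum]
    refine Finset.sum_congr rfl fun l _ => ?_
    rw [F2_R_apply, hy, map_smul, Module.Basis.coord_apply]
  have h7 : Ψ Z = 0 := by
    rw [hsum, map_sum]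
    exact Finset.sum_eq_zero fun l _ => (hΨ _).trans (hR _ _)
  rw [hΨ] at h7
  exact sub_eq_zero.1 h7

end

/-- **F2.** If the invariant forms of degree four are generated in degree two, then `R` is stable under the brackets
with all the skew endomorphisms. -/
theorem skew_mem {k V : Type*} [Field k] [CharZero k] [IsAlgClosed k] [AddCommGroup V] [Module k V]
    [FiniteDimensional k V] [Nontrivial V] {β : V →ₗ[k] V →ₗ[k] k} (hn : ∀ u, (∀ v, β u v = 0) → u = 0)
    {R : Submodule k (End k V)} (hlie : ∀ X ∈ R, ∀ Y ∈ R, X * Y - Y * X ∈ R)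
    (hirr : ∀ C : Submodule k V, (∀ x ∈ R, ∀ u ∈ C, x u ∈ C) → C = ⊥ ∨ C = ⊤)
    (htr : ∀ x ∈ R, LinearMap.trace k V x = 0)
    (hsk : ∀ X ∈ R, ∀ u v, β (X u) v + β u (X v) = 0)
    (hfour : ∀ T : MultilinearMap k (fun _ : Fin 4 => V) k, (∀ X ∈ R, ∀ v : Fin 4 → V,
      ∑ j, T (update v j (X (v j))) = 0) → ∃ a b c : k, ∀ v : Fin 4 → V, T v = a * (β (v 0) (v 1) * β (v 2) (v 3)) +
        b * (β (v 0) (v 2) * β (v 1) (v 3)) + c * (β (v 0) (v 3) * β (v 1) (v 2)))
    {N : End k V} (hN : ∀ u v, β (N u) v + β u (N v) = 0) {Z : End k V} (hZ : Z ∈ R) : N * Z - Z * N ∈ R := by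
  obtain ⟨Q, hQ, hfix, had⟩ := exists_proj R hlie hirr htr
  have h1 := comm_proj hn hsk hfour had hN Z
  rw [hfix Z hZ] at h1
  rw [← h1]
  exact hQ _

end Pool.Agent.Lib.MP_021685_agO6
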