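import Pool.Agent.Lib.MP_021685_agO6.F2
import Pool.Agent.Lib.MP_021685_agO6.Defs
import Pool.Agent.Lib.MP_021685_agO.OA

/-!
# F3: Tate forms of degree four generated in degree two give a tangent vector of rank one
-/

set_option autoImplicit false
set_option linter.unusedSectionVars false

namespace Pool.Agent.Lib.MP_021685_agO6

open Module Function Pool.Agent.Lib.MP_021685_agO

private theorem F3_trace {k V : Type*} [Field k] [CharZero k] [AddCommGroup V] [Module k V] [FiniteDimensional k V]
    {β : V →ₗ[k] V →ₗ[k] k} (hn : ∀ u, (∀ v, β u v = 0) → u = 0) {Y : End k V}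
    (hY : ∀ u v, β (Y u) v + β u (Y v) = 0) : LinearMap.trace k V Y = 0 := by
  have h1 : Injective β := LinearMap.ker_eq_bot.1 (LinearMap.ker_eq_bot'.2 fun u hu =>
    hn u fun v => by rw [hu, LinearMap.zero_apply])
  have h2 : finrank k V = finrank k (Dual k V) := (Subspace.dual_finrank_eq (K := k) (V := V)).symm
  have h3 : Surjective β := (LinearMap.injective_iff_surjective_of_finrank_eq_finrank h2).1 h1
  let e : V ≃ₗ[k] Dual k V := LinearEquiv.ofBijective β ⟨h1, h3⟩
  have he : ∀ u, e u = β u := fun u => rfl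
  have h4 : e.conj Y = (-1 : k) • Dual.transpose Y := by
    refine LinearMap.ext fun f => ?_
    obtain ⟨u, rfl⟩ := e.surjective f
    rw [LinearEquiv.conj_apply_apply, LinearEquiv.symm_apply_apply, he, he, LinearMap.smul_apply]
    refine LinearMap.ext fun v => ?_
    rw [LinearMap.smul_apply, Dual.transpose_apply, LinearMap.comp_apply, smul_eq_mul, neg_one_mul]
    exact eq_neg_of_add_eq_zero_left (hY u v)
  have h5 : LinearMap.trace k (Dual k V) (e.conj Y) = LinearMap.trace k V Y := LinearMap.trace_conj' Y e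
  have h8 : LinearMap.trace k (Dual k V) (Dual.transpose Y) = LinearMap.trace k V Y := LinearMap.trace_transpose' Y
  rw [h4, LinearMap.map_smul, h8, smul_eq_mul] at h5
  have h6 : (2 : k) * LinearMap.trace k V Y = 0 := by linear_combination (-1 : k) * h5
  exact (mul_eq_zero.1 h6).resolve_left two_ne_zero

variable {k H : Type*} [Field k] [CharZero k] [IsAlgClosed k] [AddCommGroup H] [Module k H]
  [FiniteDimensional k H] {g : Submodule k (End k H)} {c : End k H → k}

private theorem F3_hodge (hg : IsGaloisAlg g c) {V : Submodule k H} (hV : IsSimpleSub g V) {β : H →ₗ[k] H →ₗ[k] k}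
    (hs : IsSympl g c V β) : ∃ h, IsHodgeElt g c h := by
  by_contra hne
  have h1 : {h | IsHodgeElt g c h} = (∅ : Set (End k H)) := by
    rw [Set.eq_empty_iff_forall_notMem]
    intro h hh
    exact hne ⟨h, hh⟩
  have h2 : ∀ X ∈ g, X = 0 := by
    intro X hX
    have h3 := hg.span X hX
    rw [h1, Submodule.span_empty, Submodule.mem_bot] at h3
    exact h3
  obtain ⟨v, hv, hv0⟩ := (Submodule.ne_bot_iff V).1 hV.1
  have h3 : Submodule.span k {v} = V := by
    rcases hV.2.2 (Submodule.span k {v}) ((Submodule.span_singleton_le_iff_mem v V).2 hv) (fun X hX u _ => by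
      rw [h2 X hX, LinearMap.zero_apply]
      exact Submodule.zero_mem _) with h | h
    · rw [Submodule.span_singleton_eq_bot] at h
      exact absurd h hv0
    · exact h
  refine hv0 (hs.nondeg v hv fun w hw => ?_)
  rw [← h3, Submodule.mem_span_singleton] at hw
  obtain ⟨a, rfl⟩ := hw
  rw [map_smul, hs.alt v hv, smul_zero]

/-- **F3.** -/
theorem OddFour.oddSimple (hg : IsGaloisAlg g c) {V : Submodule k H} (hV : OddFour g c V) : OddSimple g c V := by
  obtain ⟨hsimp, β, hs, hfour⟩ := hV
  refine ⟨hsimp, ⟨β, hs⟩, ?_⟩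
  have hne := hsimp.1
  have hst := hsimp.2.1
  obtain ⟨h, hh⟩ := F3_hodge hg hsimp hs
  have hnt : Nontrivial V := Submodule.nontrivial_iff_ne_bot.2 hne
  -- the form on `V`
  let β' : V →ₗ[k] V →ₗ[k] k := β.compl₁₂ V.subtype V.subtype
  have hβ' : ∀ u v : V, β' u v = β u v := fun u v => rfl
  have hn : ∀ u : V, (∀ v, β' u v = 0) → u = 0 := fun u hu =>
    Subtype.ext (hs.nondeg u u.2 fun v hv => hu ⟨v, hv⟩)
  -- the Lie algebra on `V`
  let R : Submodule k (End k V) :=
    { carrier := {Y | ∃ X ∈ g, ∀ u : V, ((Y u : V) : H) = X u - (c X / 2) • (u : H)}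
      add_mem' := by
        rintro Y Y' ⟨X, hX, h1⟩ ⟨X', hX', h2⟩
        refine ⟨X + X', g.add_mem hX hX', fun u => ?_⟩
        rw [LinearMap.add_apply, Submodule.coe_add, h1, h2, LinearMap.add_apply, hs.c_add hne hX hX', add_div, add_smul]
        abel
      zero_mem' := by
        refine ⟨0, g.zero_mem, fun u => ?_⟩
        have h3 : c 0 = 0 := by
          have := hs.c_smul hne 0 g.zero_mem
          rwa [zero_smul, zero_mul] at this
        rw [LinearMap.zero_apply, LinearMap.zero_apply, h3, zero_div, zero_smul, sub_zero]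
        rfl
      smul_mem' := by
        rintro a Y ⟨X, hX, h1⟩
        refine ⟨a • X, g.smul_mem a hX, fun u => ?_⟩
        rw [LinearMap.smul_apply, Submodule.coe_smul, h1, LinearMap.smul_apply, hs.c_smul hne a hX, smul_sub, smul_smul,
          mul_div_assoc] }
  have hR : ∀ Y, Y ∈ R ↔ ∃ X ∈ g, ∀ u : V, ((Y u : V) : H) = X u - (c X / 2) • (u : H) := fun Y => Iff.rfl
  have hof : ∀ X ∈ g, ∃ Y ∈ R, ∀ u : V, ((Y u : V) : H) = X u - (c X / 2) • (u : H) := by
    intro X hX
    let Y : End k V := X.restrict (fun u hu => hst X hX u hu) - (c X / 2) • (1 : End k V)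
    have hY : ∀ u : V, ((Y u : V) : H) = X u - (c X / 2) • (u : H) := fun u => rfl
    exact ⟨Y, ⟨X, hX, hY⟩, hY⟩
  have hlie : ∀ X ∈ R, ∀ Y ∈ R, X * Y - Y * X ∈ R := by
    rintro Y ⟨X, hX, h1⟩ Y' ⟨X', hX', h2⟩
    refine ⟨X * X' - X' * X, hg.lie X hX X' hX', fun u => ?_⟩
    rw [hs.c_bracket hne hst hX hX' (hg.lie X hX X' hX'), zero_div, zero_smul, sub_zero, LinearMap.sub_apply,
      LinearMap.sub_apply, Module.End.mul_apply, Module.End.mul_apply, Module.End.mul_apply, Module.End.mul_apply,
      Submodule.coe_sub, h1, h2, h2, h1, map_sub, map_sub, map_smul, map_smul, smul_sub, smul_sub,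
      smul_comm (c X / 2) (c X' / 2) (u : H)]
    abel
  have hirr : ∀ C : Submodule k V, (∀ x ∈ R, ∀ u ∈ C, x u ∈ C) → C = ⊥ ∨ C = ⊤ := by
    intro C hC
    have h1 : IsStable g (C.map V.subtype) := by
      rintro X hX _ ⟨u, hu, rfl⟩
      obtain ⟨Y, hY, h2⟩ := hof X hX
      refine ⟨Y u + (c X / 2) • u, C.add_mem (hC Y hY u hu) (C.smul_mem _ hu), ?_⟩
      rw [Submodule.subtype_apply, Submodule.coe_add, Submodule.coe_smul, h2, sub_add_cancel]
      rfl
    rcases hsimp.2.2 _ (Submodule.map_subtype_le V C) h1 with h2 | h2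
    · left
      rw [eq_bot_iff]
      intro u hu
      have h3 : (u : H) ∈ C.map V.subtype := ⟨u, hu, rfl⟩
      rw [h2, Submodule.mem_bot] at h3
      rw [Submodule.mem_bot]
      exact Subtype.ext h3
    · right
      rw [eq_top_iff]
      intro u _
      have h3 : (u : H) ∈ C.map V.subtype := by
        rw [h2]
        exact u.2
      obtain ⟨w, hw, h4⟩ := h3
      rwa [← Subtype.ext (h4 : (w : H) = u)]
  have hsk : ∀ X ∈ R, ∀ u v, β' (X u) v + β' u (X v) = 0 := by
    rintro Y ⟨X, hX, h1⟩ u v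
    rw [hβ', hβ', h1, h1, map_sub, map_sub, LinearMap.sub_apply, map_smul, map_smul, LinearMap.smul_apply, smul_eq_mul]
    linear_combination hs.mult X hX u u.2 v v.2
  have htr : ∀ x ∈ R, LinearMap.trace k V x = 0 := fun x hx => F3_trace hn (hsk x hx)
  -- the forms of degree four
  obtain ⟨V', hV', hcompl⟩ := hg.semisimple V hst
  have hPX : ∀ X ∈ g, ∀ x : H, ((Submodule.projectionOnto V V' hcompl (X x) : V) : H) =
      X (Submodule.projectionOnto V V' hcompl x : V) := by
    intro X hX x
    obtain ⟨a, ha, b, hb, rfl⟩ := Submodule.mem_sup.1 (hcompl.sup_eq_top ▸ Submodule.mem_top : x ∈ V ⊔ V')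
    have e1 : Submodule.projectionOnto V V' hcompl a = ⟨a, ha⟩ :=
      Submodule.projectionOnto_apply_left hcompl ⟨a, ha⟩
    have e2 : Submodule.projectionOnto V V' hcompl b = 0 :=
      Submodule.projectionOnto_apply_right hcompl ⟨b, hb⟩
    have e3 : Submodule.projectionOnto V V' hcompl (X a) = ⟨X a, hst X hX a ha⟩ :=
      Submodule.projectionOnto_apply_left hcompl ⟨X a, hst X hX a ha⟩
    have e4 : Submodule.projectionOnto V V' hcompl (X b) = 0 :=
      Submodule.projectionOnto_apply_right hcompl ⟨X b, hV' X hX b hb⟩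
    rw [map_add, map_add, map_add, e1, e2, e3, e4, add_zero, add_zero]
  have hfour' : ∀ T : MultilinearMap k (fun _ : Fin 4 => V) k, (∀ X ∈ R, ∀ v : Fin 4 → V,
      ∑ j, T (update v j (X (v j))) = 0) → ∃ a b c : k, ∀ v : Fin 4 → V, T v = a * (β' (v 0) (v 1) * β' (v 2) (v 3)) +
        b * (β' (v 0) (v 2) * β' (v 1) (v 3)) + c * (β' (v 0) (v 3) * β' (v 1) (v 2)) := by
    intro T hT
    let P : H →ₗ[k] V := Submodule.projectionOnto V V' hcompl
    have hP : ∀ v : V, P v = v := fun v => Submodule.projectionOnto_apply_left hcompl v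
    obtain ⟨a₁, a₂, a₃, h1⟩ := hfour (T.compLinearMap fun _ => P) (by
      intro X hX v
      obtain ⟨Y, hY, h2⟩ := hof X hX
      have h3 : ∀ x, P (X x) = Y (P x) + (c X / 2) • P x := by
        intro x
        apply Subtype.ext
        rw [Submodule.coe_add, Submodule.coe_smul, h2, sub_add_cancel]
        exact hPX X hX x
      have h4 : ∀ j, (T.compLinearMap fun _ => P) (update v j (X (v j))) =
          T (update (fun i => P (v i)) j (Y (P (v j)))) + (c X / 2) * T (fun i => P (v i)) := by
        intro j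
        rw [MultilinearMap.compLinearMap_apply]
        have h5 : (fun i => P (update v j (X (v j)) i)) =
            update (fun i => P (v i)) j (Y (P (v j)) + (c X / 2) • P (v j)) := by
          funext i
          by_cases hij : i = j
          · subst hij
            rw [update_self, update_self, h3]
          · rw [update_of_ne hij, update_of_ne hij]
        rw [h5, MultilinearMap.map_update_add, MultilinearMap.map_update_smul, update_eq_self, smul_eq_mul]
      rw [Finset.sum_congr rfl fun j _ => h4 j, Finset.sum_add_distrib, hT Y hY (fun i => P (v i)), zero_add,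
        Finset.sum_const, Finset.card_univ, Fintype.card_fin, nsmul_eq_mul, MultilinearMap.compLinearMap_apply]
      push_cast
      ring)
    refine ⟨a₁, a₂, a₃, fun v => ?_⟩
    have h5 := h1 (fun i => (v i : H)) (fun i => (v i).2)
    rw [MultilinearMap.compLinearMap_apply] at h5
    simp only [hP] at h5
    exact h5
  -- a vector of the kernel of `h`
  have hhh : ∀ x, h (h x) = h x := fun x => LinearMap.congr_fun hh.2.1 x
  obtain ⟨v₀, hv₀, hne₀, hh₀⟩ : ∃ v₀ ∈ V, v₀ ≠ 0 ∧ h v₀ = 0 := by
    by_contra hcon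
    have h1 : ∀ u ∈ V, h u = u := by
      intro u hu
      by_contra h2
      refine hcon ⟨u - h u, V.sub_mem hu (hst h hh.1 u hu), fun h3 => h2 (sub_eq_zero.1 h3).symm, ?_⟩
      rw [map_sub, hhh, sub_self]
    obtain ⟨v, hv, hv0⟩ := (Submodule.ne_bot_iff V).1 hne
    refine hv0 (hs.nondeg v hv fun w hw => ?_)
    have h2 := hs.mult h hh.1 v hv w hw
    rw [h1 v hv, h1 w hw, hh.2.2, one_mul] at h2
    linear_combination h2
  let w₀ : V := ⟨v₀, hv₀⟩
  let N : End k V := (β' w₀).smulRight w₀
  have hNa : ∀ u : V, N u = β v₀ u • w₀ := fun u => rfl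
  have hN : ∀ u v, β' (N u) v + β' u (N v) = 0 := by
    intro u v
    have h1 : β u v₀ = - β v₀ u := hs.neg u.2 hv₀
    rw [hNa, hNa, map_smul, map_smul, LinearMap.smul_apply, smul_eq_mul, smul_eq_mul, hβ', hβ']
    show β v₀ u * β v₀ v + β v₀ v * β u v₀ = 0
    rw [h1]
    ring
  obtain ⟨Z, hZ, hZu⟩ := hof h hh.1
  have hβh : ∀ u ∈ V, β v₀ (h u) = β v₀ u := by
    intro u hu
    have h1 := hs.mult h hh.1 v₀ hv₀ u hu
    rw [hh₀, map_zero, LinearMap.zero_apply, zero_add, hh.2.2, one_mul] at h1
    exact h1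
  have hNZ : N * Z - Z * N = N := by
    refine LinearMap.ext fun u => Subtype.ext ?_
    rw [LinearMap.sub_apply, Module.End.mul_apply, Module.End.mul_apply, Submodule.coe_sub, hZu, hNa, hNa,
      Submodule.coe_smul, Submodule.coe_smul, hZu, map_sub, map_smul, map_smul, hβh u u.2]
    show (β v₀ u - (c h / 2) • β v₀ u) • v₀ - (β v₀ u • h v₀ - (c h / 2) • β v₀ u • v₀) = β v₀ u • v₀
    rw [hh₀, smul_zero, sub_smul, smul_assoc]
    abel
  have hmem := skew_mem hn hlie hirr htr hsk hfour' hN hZ
  rw [hNZ, hR] at hmem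
  obtain ⟨X, hX, hXu⟩ := hmem
  -- the element of degree one
  have hB : h * X - X * h ∈ g := hg.lie h hh.1 X hX
  have hM : X * h - h * X * h ∈ g := by
    have h1 := g.smul_mem (2⁻¹ : k) (g.sub_mem (hg.lie h hh.1 _ hB) hB)
    have h2 : h * (h * X - X * h) - (h * X - X * h) * h - (h * X - X * h) = (2 : k) • (X * h - h * X * h) := by
      have e1 : h * (h * X) = h * X := by rw [← mul_assoc, hh.2.1]
      have e2 : X * h * h = X * h := by rw [mul_assoc, hh.2.1]
      rw [mul_sub, sub_mul, e1, e2, ← mul_assoc, two_smul]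
      abel
    rw [h2, smul_smul, inv_mul_cancel₀ (two_ne_zero' k), one_smul] at h1
    exact h1
  have hMu : ∀ u ∈ V, (X * h - h * X * h) u = β v₀ u • v₀ := by
    intro u hu
    have hhu := hst h hh.1 u hu
    have h1 := hXu ⟨h u, hhu⟩
    rw [hNa] at h1
    have h2 : β v₀ (h u) • v₀ = X (h u) - (c X / 2) • h u := h1
    rw [hβh u hu] at h2
    have h3 : X (h u) = β v₀ u • v₀ + (c X / 2) • h u := by rw [h2, sub_add_cancel]
    rw [LinearMap.sub_apply, Module.End.mul_apply, Module.End.mul_apply, Module.End.mul_apply, h3, map_add, map_smul,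
      map_smul, hh₀, hhh, smul_zero, zero_add, add_sub_cancel_right]
  refine ⟨X * h - h * X * h, ⟨hM, h, hh, Or.inr ?_⟩, Or.inl ?_⟩
  · have e1 : h * (X * h - h * X * h) = 0 := by
      rw [mul_sub, mul_assoc h X h, ← mul_assoc h h (X * h), hh.2.1, sub_self]
    have e2 : (X * h - h * X * h) * h = X * h - h * X * h := by
      rw [sub_mul, mul_assoc X h h, hh.2.1, mul_assoc (h * X) h h, hh.2.1]
    rw [e1, e2, zero_sub]
  · have h1 : V.map (X * h - h * X * h) = Submodule.span k {v₀} := by
      apply le_antisymm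
      · rintro _ ⟨u, hu, rfl⟩
        rw [hMu u hu]
        exact Submodule.smul_mem _ _ (Submodule.mem_span_singleton_self v₀)
      · rw [Submodule.span_singleton_le_iff_mem]
        obtain ⟨u, hu, hu0⟩ : ∃ u ∈ V, β v₀ u ≠ 0 := by
          by_contra hcon
          refine hne₀ (hs.nondeg v₀ hv₀ fun u hu => ?_)
          by_contra h2
          exact hcon ⟨u, hu, h2⟩
        refine ⟨(β v₀ u)⁻¹ • u, V.smul_mem _ hu, ?_⟩
        rw [map_smul, hMu u hu, smul_smul, inv_mul_cancel₀ hu0, one_smul]
    rw [h1, finrank_span_singleton hne₀]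
    exact odd_one

end Pool.Agent.Lib.MP_021685_agO6
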