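import Pool.Agent.Lib.MP_021685_agO6.F3
import Pool.Agent.Lib.MP_021685_agO5.Main2

/-!
# Tate classes on products of powers `A ^ n × B ^ a × Z ^ b × ..`: the main theorem with the fourth option
-/

set_option autoImplicit false

namespace Pool.Agent.Lib.MP_021685_agO6

open Module Function Pool.Agent.Lib.MP_021685_agO Pool.Agent.Lib.MP_021685_agZ Pool.Agent.Lib.MP_021685_agN
  Pool.Agent.Lib.MP_021685_agO5

theorem main12 {k₀ k ι J : Type*} {N : J → Type*} {N' : Type*} [Field k₀] [Field k] [CharZero k]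
    [IsAlgClosed k] [Algebra k₀ k] [Fintype ι] [DecidableEq ι] [Fintype J]
    [∀ j, AddCommGroup (N j)] [∀ j, Module k (N j)] [∀ j, FiniteDimensional k (N j)]
    [AddCommGroup N'] [Module k N']
    {g : Submodule k (End k (ι → k))} {c : End k (ι → k) → k}
    {G : End k (ι → k) → (∀ j, End k (N j)) → Prop} (hg : IsGaloisAlg g c) {H₀ H₁ : Submodule k (ι → k)}
    (hc : IsCompl H₀ H₁) (h₀ : IsStable g H₀) (h₁ : IsStable g H₁)
    (hHom : ∀ φ : End k (ι → k), (∀ X ∈ g, φ * X = X * φ) → ∀ u ∈ H₁, φ u ∈ H₁)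
    (hodd : H₁ ≤ sSup {V | OddFour g c V ∨ OddSimple g c V ∨ OddPlace g c V ∨ OddDisc k₀ g c V})
    (hG : IsLieOver g G) (hN : ∀ U ≤ H₁, IsSimpleSub g U → ∀ j, IsSmall g c G j U)
    (θ : (∀ j, End k (N j)) → End k N') (hθ : IsLinearMap k θ) (i s : ℕ)
    (T : MultilinearMap k (fun _ : Fin s => ι → k) N')
    (hT : IsTateMap G c θ i s T) : IsGenMap g c G θ H₁ i s T := by
  have hodd' : H₁ ≤ sSup {V | OddSimple g c V ∨ OddDiv g c V} := by
    refine hodd.trans (sSup_le_sSup fun V hV => ?_)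
    rcases hV with hV | hV | hV | hV
    · exact Or.inl (OddFour.oddSimple hg hV)
    · exact Or.inl hV
    · exact Or.inl (OddPlace.oddSimple hg hV)
    · exact Or.inl (OddDisc.oddSimple hg hV)
  have h1 := mainJ (G := hG.sub) hg hc h₀ h₁ hHom hodd'
    (fun P hP Q hQ => hG.lie P.1 P.2 Q.1 Q.2 hP hQ) (fun X => hG.fst X)
    (fun j U hU hUs => (hN U hU hUs j).at hG) (hθ.mk' θ) i s T
    ((tateMap_iff hG (hθ.mk' θ) i s T).2 hT)
  exact (genMap_iff hG (hθ.mk' θ) H₁ i s T).1 h1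

end Pool.Agent.Lib.MP_021685_agO6
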